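import Mathlib

/-!
# A permanent inequality for positive semidefinite matrices fails

The permanent of a Gram matrix of `n` vectors `(x i, y i)` of `ℂ²` is `∑ j, j! (n - j)! |c j|²`, where `c j`
is the coefficient of `X ^ j` in `∏ i, (x i X + y i)`. The counterexample has order `15`: the first vector
is `(√2, 0)`, the others are `(√2 ω ^ i, 1)` for the seventh roots of unity `ω ^ i` and seven copies
of `(0, 1)`.
-/

set_option autoImplicit false

namespace Pool.Agent.Results.MP_395ab6_co.RankTwo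

open Finset Matrix Polynomial ComplexConjugate ComplexOrder

section Formula

variable {ι : Type} [Fintype ι] [DecidableEq ι]

/-- The product of the `x i` over `T` and of the `y i` over the complement of `T`. -/
noncomputable def cf (x y : ι → ℂ) (T : Finset ι) : ℂ := (∏ i ∈ T, x i) * ∏ i ∈ Tᶜ, y i

/-- The product of the linear polynomials `x i X + y i`. -/
noncomputable def gp (x y : ι → ℂ) : ℂ[X] := ∏ i, (C (x i) * X + C (y i))

theorem gp_coeff (x y : ι → ℂ) (j : ℕ) :
    (gp x y).coeff j = ∑ T ∈ (univ : Finset ι).powersetCard j, cf x y T := by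
  unfold gp
  rw [Finset.prod_add, finsetSum_coeff]
  have h : ∀ T ∈ (univ : Finset ι).powerset,
      ((∏ i ∈ T, (C (x i) * X : ℂ[X])) * ∏ i ∈ univ \ T, C (y i)).coeff j
        = if T.card = j then cf x y T else 0 := by
    intro T _
    have : (∏ i ∈ T, (C (x i) * X : ℂ[X])) * ∏ i ∈ univ \ T, C (y i) = C (cf x y T) * X ^ T.card := by
      rw [Finset.prod_mul_distrib, Finset.prod_const, cf, ← Finset.compl_eq_univ_sdiff, map_mul,
        map_prod, map_prod]
      ring
    rw [this, coeff_C_mul_X_pow]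
    simp only [eq_comm]
  rw [Finset.sum_congr rfl h, ← Finset.sum_filter]
  apply Finset.sum_congr _ (fun _ _ => rfl)
  ext T
  simp [Finset.mem_powersetCard]

/-- The sum of `cf` over all images of `T`. -/
noncomputable def Phi (x y : ι → ℂ) (T : Finset ι) : ℂ :=
  ∑ σ : Equiv.Perm ι, cf x y (T.map σ.toEmbedding)

theorem Phi_map (x y : ι → ℂ) (T : Finset ι) (τ : Equiv.Perm ι) :
    Phi x y (T.map τ.toEmbedding) = Phi x y T := by
  unfold Phi
  rw [← Equiv.sum_comp (Equiv.mulRight τ) (fun σ => cf x y (T.map σ.toEmbedding))]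
  apply Finset.sum_congr rfl
  intro σ _
  congr 1
  ext a
  simp
  exact Iff.rfl

theorem exists_perm (T S : Finset ι) (h : T.card = S.card) :
    ∃ τ : Equiv.Perm ι, T.map τ.toEmbedding = S := by
  let e : {x // x ∈ T} ≃ {x // x ∈ S} := Finset.equivOfCardEq h
  refine ⟨e.extendSubtype, ?_⟩
  apply Finset.eq_of_subset_of_card_le
  · intro a ha
    rw [Finset.mem_map] at ha
    obtain ⟨b, hb, rfl⟩ := ha
    exact e.extendSubtype_mem b hb
  · rw [Finset.card_map, h]

theorem Phi_eq (x y : ι → ℂ) (T : Finset ι) :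
    Phi x y T = (T.card.factorial * (Fintype.card ι - T.card).factorial : ℕ)
      * (gp x y).coeff T.card := by
  have h1 : ∑ S ∈ (univ : Finset ι).powersetCard T.card, Phi x y S
      = ((Fintype.card ι).choose T.card : ℂ) * Phi x y T := by
    have : ∀ S ∈ (univ : Finset ι).powersetCard T.card, Phi x y S = Phi x y T := by
      intro S hS
      rw [Finset.mem_powersetCard] at hS
      obtain ⟨τ, rfl⟩ := exists_perm T S hS.2.symm
      exact Phi_map x y T τ
    rw [Finset.sum_congr rfl this, Finset.sum_const, Finset.card_powersetCard, Finset.card_univ,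
      nsmul_eq_mul]
  have h2 : ∑ S ∈ (univ : Finset ι).powersetCard T.card, Phi x y S
      = ((Fintype.card ι).factorial : ℂ) * (gp x y).coeff T.card := by
    unfold Phi
    rw [Finset.sum_comm]
    have : ∀ σ : Equiv.Perm ι, ∑ S ∈ (univ : Finset ι).powersetCard T.card,
        cf x y (S.map σ.toEmbedding) = (gp x y).coeff T.card := by
      intro σ
      rw [gp_coeff]
      apply Finset.sum_bij (fun S _ => S.map σ.toEmbedding)
      · intro S hS
        rw [Finset.mem_powersetCard] at hS ⊢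
        exact ⟨Finset.subset_univ _, by rw [Finset.card_map]; exact hS.2⟩
      · intro S _ S' _ h
        exact Finset.map_injective _ h
      · intro S hS
        rw [Finset.mem_powersetCard] at hS
        refine ⟨S.map (σ⁻¹ : Equiv.Perm ι).toEmbedding, ?_, ?_⟩
        · rw [Finset.mem_powersetCard]
          exact ⟨Finset.subset_univ _, by rw [Finset.card_map]; exact hS.2⟩
        · ext a
          simp
          have : (Equiv.symm σ⁻¹) ((Equiv.symm σ) a) = a := σ.apply_symm_apply a
          rw [this]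
      · intro S _; rfl
    rw [Finset.sum_congr rfl fun σ _ => this σ, Finset.sum_const, Finset.card_univ,
      Fintype.card_perm, nsmul_eq_mul]
  have hle : T.card ≤ Fintype.card ι := Finset.card_le_univ T
  have h3 := Nat.choose_mul_factorial_mul_factorial hle
  have h4 : ((Fintype.card ι).choose T.card : ℂ) ≠ 0 := by
    exact_mod_cast (Nat.choose_pos hle).ne'
  apply mul_left_cancel₀ h4
  rw [← h1, h2, ← h3]
  push_cast
  ring

/-- The permanent of a Gram matrix of rank at most two. -/
theorem perm_formula (x y : ι → ℂ) :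
    permanent (fun i j => x i * conj (x j) + y i * conj (y j) : Matrix ι ι ℂ)
      = ∑ j ∈ range (Fintype.card ι + 1),
          ((j.factorial * (Fintype.card ι - j).factorial : ℕ) : ℂ) *
            ((gp x y).coeff j * conj ((gp x y).coeff j)) := by
  have h1 : permanent (fun i j => x i * conj (x j) + y i * conj (y j) : Matrix ι ι ℂ)
      = ∑ T : Finset ι, conj (cf x y T) * Phi x y T := by
    unfold permanent
    have : ∀ σ : Equiv.Perm ι, ∏ i, (x (σ i) * conj (x i) + y (σ i) * conj (y i))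
        = ∑ T : Finset ι, conj (cf x y T) * cf x y (T.map σ.toEmbedding) := by
      intro σ
      rw [Finset.prod_add, Finset.powerset_univ]
      apply Finset.sum_congr rfl
      intro T _
      rw [← Finset.compl_eq_univ_sdiff, Finset.prod_mul_distrib, Finset.prod_mul_distrib]
      have e : (T.map σ.toEmbedding)ᶜ = Tᶜ.map σ.toEmbedding := by
        ext a; simp
      rw [cf, cf, e, Finset.prod_map, Finset.prod_map, map_mul, map_prod, map_prod]
      simp only [Equiv.coe_toEmbedding]
      ring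
    rw [Finset.sum_congr rfl fun σ _ => this σ, Finset.sum_comm]
    apply Finset.sum_congr rfl
    intro T _
    rw [← Finset.mul_sum]
    rfl
  rw [h1, ← Finset.powerset_univ, Finset.sum_powerset, Finset.card_univ]
  apply Finset.sum_congr rfl
  intro j _
  have : ∀ T ∈ (univ : Finset ι).powersetCard j, conj (cf x y T) * Phi x y T
      = conj (cf x y T) * (((j.factorial * (Fintype.card ι - j).factorial : ℕ) : ℂ) *
        (gp x y).coeff j) := by
    intro T hT
    rw [Finset.mem_powersetCard] at hT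
    rw [Phi_eq, hT.2]
  rw [Finset.sum_congr rfl this, ← Finset.sum_mul, ← map_sum, ← gp_coeff]
  ring

end Formula

section Example

/-- The primitive seventh root of unity. -/
noncomputable def w : ℂ := Complex.exp (2 * Real.pi * Complex.I / 7)

theorem w_prim : IsPrimitiveRoot w 7 := Complex.isPrimitiveRoot_exp 7 (by norm_num)

theorem w_pow : w ^ 7 = 1 := w_prim.pow_eq_one

theorem w_sum : w ^ 6 + w ^ 5 + w ^ 4 + w ^ 3 + w ^ 2 + w + 1 = 0 := by
  have h1 : w ≠ 1 := w_prim.ne_one (by norm_num)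
  have h2 : (w - 1) * (w ^ 6 + w ^ 5 + w ^ 4 + w ^ 3 + w ^ 2 + w + 1) = 0 := by
    have := w_pow
    linear_combination this
  rcases mul_eq_zero.1 h2 with h | h
  · exact absurd (sub_eq_zero.1 h) h1
  · exact h

theorem w_conj : w * conj w = 1 := by
  rw [Complex.mul_conj, Complex.normSq_eq_norm_sq, w_prim.norm'_eq_one (by norm_num)]
  norm_num

/-- The real number `√2` as a complex number. -/
noncomputable def r : ℂ := (Real.sqrt 2 : ℝ)

theorem r_sq : r * r = 2 := by
  unfold r
  rw [← Complex.ofReal_mul, Real.mul_self_sqrt (by norm_num)]; norm_num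

theorem r_conj : conj r = r := Complex.conj_ofReal _

/-- First coordinates of the vectors other than the first one. -/
noncomputable def u (i : Fin 14) : ℂ := if (i : ℕ) < 7 then r * w ^ (i : ℕ) else 0

theorem prod_seven (Y : ℂ[X]) :
    (C (w ^ 0) * Y + 1) * (C (w ^ 1) * Y + 1) * (C (w ^ 2) * Y + 1) * (C (w ^ 3) * Y + 1) *
      (C (w ^ 4) * Y + 1) * (C (w ^ 5) * Y + 1) * (C (w ^ 6) * Y + 1) = 1 + Y ^ 7 := by
  have h7 : (C w : ℂ[X]) ^ 7 = 1 := by rw [← C_pow, w_pow, C_1]
  have hs : (C w : ℂ[X]) ^ 6 + C w ^ 5 + C w ^ 4 + C w ^ 3 + C w ^ 2 + C w + 1 = 0 := by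
    have := congrArg (C : ℂ → ℂ[X]) w_sum
    simpa using this
  simp only [C_pow, pow_zero, pow_one, one_mul, map_one]
  set z : ℂ[X] := C w
  have e1 : (z + z ^ 6) + (z ^ 2 + z ^ 5) + (z ^ 3 + z ^ 4) = -1 := by linear_combination hs
  have p1 : (z * Y + 1) * (z ^ 6 * Y + 1) = (Y ^ 2 + 1) + (z + z ^ 6) * Y := by
    linear_combination Y ^ 2 * h7
  have p2 : (z ^ 2 * Y + 1) * (z ^ 5 * Y + 1) = (Y ^ 2 + 1) + (z ^ 2 + z ^ 5) * Y := by
    linear_combination Y ^ 2 * h7
  have p3 : (z ^ 3 * Y + 1) * (z ^ 4 * Y + 1) = (Y ^ 2 + 1) + (z ^ 3 + z ^ 4) * Y := by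
    linear_combination Y ^ 2 * h7
  have e2 : (z + z ^ 6) * (z ^ 2 + z ^ 5) + (z + z ^ 6) * (z ^ 3 + z ^ 4)
      + (z ^ 2 + z ^ 5) * (z ^ 3 + z ^ 4) = -2 := by
    linear_combination (2 - 2 * z + z ^ 3 + z ^ 5) * hs
  have e3 : (z + z ^ 6) * (z ^ 2 + z ^ 5) * (z ^ 3 + z ^ 4) = 1 := by
    linear_combination (-1 + z + z ^ 6 - z ^ 7 + z ^ 9) * hs
  calc _ = (Y + 1) * ((z * Y + 1) * (z ^ 6 * Y + 1)) * ((z ^ 2 * Y + 1) * (z ^ 5 * Y + 1)) *
        ((z ^ 3 * Y + 1) * (z ^ 4 * Y + 1)) := by ring
    _ = 1 + Y ^ 7 := by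
      rw [p1, p2, p3]
      linear_combination (Y + 1) * (Y ^ 2 + 1) ^ 2 * Y * e1 + (Y + 1) * (Y ^ 2 + 1) * Y ^ 2 * e2
        + (Y + 1) * Y ^ 3 * e3

theorem w_abs (i : ℕ) : (r * w ^ i) * conj (r * w ^ i) = 2 := by
  rw [map_mul, map_pow, r_conj]
  calc r * w ^ i * (r * conj w ^ i) = (r * r) * (w * conj w) ^ i := by ring
    _ = 2 := by rw [r_sq, w_conj, one_pow, mul_one]

theorem w_seven (i : ℕ) : (r * w ^ i) ^ 7 = r ^ 7 := by
  rw [mul_pow, ← pow_mul, mul_comm i 7, pow_mul, w_pow, one_pow, mul_one]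

theorem prod_u : ∏ i : Fin 14, (C (u i) * X + C 1 : ℂ[X]) = 1 + (C r * X) ^ 7 := by
  rw [← prod_seven (C r * X)]
  simp only [Fin.prod_univ_succ, u]
  simp
  ring

/-- The first coordinates. -/
noncomputable def x : Fin 15 → ℂ := Fin.cons r u

/-- The second coordinates. -/
noncomputable def y : Fin 15 → ℂ := Fin.cons 0 (fun _ => 1)

/-- The matrix. -/
noncomputable def A : Matrix (Fin 15) (Fin 15) ℂ := fun i j => x i * conj (x j) + y i * conj (y j)

theorem A_psd : A.PosSemidef := by
  have h1 := Matrix.posSemidef_vecMulVec_self_star x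
  have h2 := Matrix.posSemidef_vecMulVec_self_star y
  have h := h1.add h2
  have : A = vecMulVec x (star x) + vecMulVec y (star y) := by
    ext i j
    simp [A, vecMulVec_apply]
  rw [this]
  exact h

theorem gp_A (j : ℕ) : (gp x y).coeff j = if j = 1 then r else if j = 8 then r ^ 8 else 0 := by
  have h : gp x y = C r * X ^ 1 + C (r ^ 8) * X ^ 8 := by
    unfold gp
    rw [Fin.prod_univ_succ]
    have : ∀ i : Fin 14, (C (x i.succ) * X + C (y i.succ) : ℂ[X]) = C (u i) * X + C 1 := by
      intro i; rfl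
    rw [Finset.prod_congr rfl fun i _ => this i, prod_u]
    have h0 : (C (x 0) * X + C (y 0) : ℂ[X]) = C r * X := by
      simp [x, y]
    rw [h0, C_pow]
    ring
  rw [h, coeff_add, coeff_C_mul_X_pow, coeff_C_mul_X_pow]
  by_cases h1 : j = 1
  · subst h1; simp
  · by_cases h8 : j = 8
    · subst h8; simp
    · simp [h1, h8]

theorem perm_A : permanent A = 226379059200 := by
  have h := perm_formula x y
  have hA : A = (fun i j => x i * conj (x j) + y i * conj (y j) : Matrix (Fin 15) (Fin 15) ℂ) := rfl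
  rw [hA, h]
  have h8 : r ^ 8 * r ^ 8 = 256 := by
    calc r ^ 8 * r ^ 8 = (r * r) ^ 8 := by ring
      _ = 256 := by rw [r_sq]; norm_num
  simp only [gp_A, Fintype.card_fin, Finset.sum_range_succ, Finset.sum_range_zero]
  simp [r_conj, r_sq, h8, Nat.factorial]
  norm_num

theorem gp_sub (k : Fin 14) (hk : (k : ℕ) < 7) :
    gp (fun i : Fin 13 => u (k.succAbove i)) (fun _ => 1)
      = ∑ p ∈ range 7, C ((- u k) ^ p) * X ^ p := by
  have h1 : (C (u k) * X + C 1 : ℂ[X]) * gp (fun i : Fin 13 => u (k.succAbove i)) (fun _ => 1)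
      = 1 + (C r * X) ^ 7 := by
    rw [← prod_u, Fin.prod_univ_succAbove _ k]
    rfl
  have hv : u k = r * w ^ (k : ℕ) := by simp [u, hk]
  have h2 : (C (u k) * X + C 1 : ℂ[X]) * ∑ p ∈ range 7, C ((- u k) ^ p) * X ^ p
      = 1 + (C r * X) ^ 7 := by
    have e : (C r * X : ℂ[X]) ^ 7 = (C (u k) * X) ^ 7 := by
      rw [mul_pow, mul_pow, ← C_pow, ← C_pow, hv, w_seven]
    rw [e]
    simp only [Finset.sum_range_succ, Finset.sum_range_zero, C_pow, C_neg, C_1]
    ring
  have h0 : (C (u k) * X + C 1 : ℂ[X]) ≠ 0 := by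
    intro h
    have := congrArg (fun q : ℂ[X] => q.coeff 0) h
    simp at this
  exact mul_left_cancel₀ h0 (h1.trans h2.symm)

/-- The principal submatrix of `M` obtained by removing index `0` and index `k + 1`. -/
def sub {n : ℕ} (M : Matrix (Fin (n + 2)) (Fin (n + 2)) ℂ) (k : Fin (n + 1)) :
    Matrix (Fin n) (Fin n) ℂ :=
  M.submatrix (fun i => (k.succAbove i).succ) (fun i => (k.succAbove i).succ)

theorem perm_sub (k : Fin 14) (hk : (k : ℕ) < 7) : permanent (sub (n := 13) A k) = 8204958720 := by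
  have h := perm_formula (fun i : Fin 13 => u (k.succAbove i)) (fun _ => 1)
  have hA : sub (n := 13) A k = (fun i j => u (k.succAbove i) * conj (u (k.succAbove j)) +
    1 * conj 1 : Matrix (Fin 13) (Fin 13) ℂ) := rfl
  rw [hA, h]
  have hc : ∀ j, (gp (fun i : Fin 13 => u (k.succAbove i)) (fun _ => 1)).coeff j *
      conj ((gp (fun i : Fin 13 => u (k.succAbove i)) (fun _ => 1)).coeff j)
      = if j < 7 then 2 ^ j else 0 := by
    intro j
    have h3 : (gp (fun i : Fin 13 => u (k.succAbove i)) (fun _ => 1)).coeff j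
        = if j < 7 then (- u k) ^ j else 0 := by
      rw [gp_sub k hk, finsetSum_coeff]
      simp only [coeff_C_mul_X_pow]
      simp
    rw [h3]
    by_cases hj : j < 7
    · rw [if_pos hj, if_pos hj, map_pow, ← mul_pow, map_neg, neg_mul_neg]
      have hv : u k = r * w ^ (k : ℕ) := by simp [u, hk]
      rw [hv, w_abs]
    · rw [if_neg hj, if_neg hj]; simp
  simp only [hc, Fintype.card_fin, Finset.sum_range_succ, Finset.sum_range_zero]
  simp [Nat.factorial]
  norm_num

theorem entry_lt (k : Fin 14) (hk : (k : ℕ) < 7) : ‖A 0 k.succ‖ ^ 2 = 4 := by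
  have h1 : A 0 k.succ = r * conj (r * w ^ (k : ℕ)) := by
    simp [A, x, y, u, hk]
  have h3 : conj (r * conj (r * w ^ (k : ℕ))) = r * (r * w ^ (k : ℕ)) := by
    rw [map_mul conj r, Complex.conj_conj, r_conj]
  have h2 : ((‖A 0 k.succ‖ ^ 2 : ℝ) : ℂ) = 4 := by
    rw [← Complex.normSq_eq_norm_sq, ← Complex.mul_conj, h1, h3]
    calc r * conj (r * w ^ (k : ℕ)) * (r * (r * w ^ (k : ℕ)))
        = (r * r) * (r * w ^ (k : ℕ) * conj (r * w ^ (k : ℕ))) := by ring
      _ = 4 := by rw [r_sq, w_abs]; norm_num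
  exact_mod_cast h2

/-- The inequality fails for a positive semidefinite matrix of order `15`: with real numbers `p` and `q`
for the permanent of `A` and for the sum, `p < q`. -/
theorem result : ∃ A : Matrix (Fin (13 + 2)) (Fin (13 + 2)) ℂ, A.PosSemidef ∧
    ∃ p q : ℝ, permanent A = (p : ℂ) ∧
      ∑ k : Fin (13 + 1), ((‖A 0 k.succ‖ ^ 2 : ℝ) : ℂ) * permanent (sub A k) = (q : ℂ) ∧
      p < q := by
  refine ⟨A, A_psd, 226379059200, 229738844160, by rw [perm_A]; norm_num, ?_, by norm_num⟩
  have h1 : ∀ k : Fin 14, ((‖A 0 k.succ‖ ^ 2 : ℝ) : ℂ) * permanent (sub (n := 13) A k)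
      = if (k : ℕ) < 7 then 32819834880 else 0 := by
    intro k
    by_cases hk : (k : ℕ) < 7
    · rw [if_pos hk, entry_lt k hk, perm_sub k hk]
      norm_num
    · rw [if_neg hk]
      have : A 0 k.succ = 0 := by simp [A, x, y, u, hk]
      rw [this]; simp
  rw [Finset.sum_congr rfl fun k _ => h1 k]
  simp only [Fin.sum_univ_succ]
  norm_num

end Example

end Pool.Agent.Results.MP_395ab6_co.RankTwo
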